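import Pool.Agent.Variants.MP_781e3b_co.Blocks

namespace Pool.Agent.Results.MP_781e3b_co.BlockContained

open Pool.Agent.Lib.MP_781e3b_co

/-- Let `H₁`, `H₂` be Ramsey equivalent in two colours and let `S` be a set of at least three
vertices of `H₁` that induces a 2-connected graph. Then `H₂` contains a copy of `H₁[S]`. -/
theorem result (a b : ℕ) (H₁ : SimpleGraph (Fin a)) (H₂ : SimpleGraph (Fin b))
    (h : RamseyEquiv H₁ H₂ 2) (S : Set (Fin a)) (hS : 3 ≤ S.ncard)
    (h2 : ∀ v : S, ((H₁.induce S).induce {v}ᶜ).Connected) :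
    (H₁.induce S).IsContained H₂ :=
  (Pool.Agent.Variants.MP_781e3b_co.Blocks.result a b H₁ H₂ h S hS h2).1

end Pool.Agent.Results.MP_781e3b_co.BlockContained
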