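import Pool.Agent.Variants.MP_781e3b_co.Connected

namespace Pool.Agent.Results.MP_781e3b_co.ConnectedEquiv

open Pool.Agent.Lib.MP_781e3b_co

/-- Let `H₁`, `H₂` be Ramsey equivalent in two colours, and let their class contain a graph `X`
whose non-isolated vertices induce a connected graph (or that has none). Then `H₁` and `H₂` are
Ramsey equivalent in `q` colours for every `q ≥ 2`. -/
theorem result (a b c : ℕ) (H₁ : SimpleGraph (Fin a)) (H₂ : SimpleGraph (Fin b))
    (X : SimpleGraph (Fin c)) (hX : (X.induce X.support).Preconnected)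
    (h₁ : RamseyEquiv X H₁ 2) (h : RamseyEquiv H₁ H₂ 2) (q : ℕ) (hq : 2 ≤ q) :
    RamseyEquiv H₁ H₂ q := fun n G =>
  ((Pool.Agent.Variants.MP_781e3b_co.Connected.result c a X H₁ h₁ hX).2 q hq n G).symm.trans
    ((Pool.Agent.Variants.MP_781e3b_co.Connected.result c b X H₂
      (fun m K => (h₁ m K).trans (h m K)) hX).2 q hq n G)

end Pool.Agent.Results.MP_781e3b_co.ConnectedEquiv
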