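import Pool.Agent.Variants.MP_781e3b_co.Connected

namespace Pool.Agent.Results.MP_781e3b_co.ConnectedRigid

open Pool.Agent.Lib.MP_781e3b_co

/-- Let `H₁`, `H₂` be Ramsey equivalent in two colours, and let the non-isolated vertices of `H₁`
induce a connected graph (or let there be none). Then `H₂` contains a copy of that graph. -/
theorem result (a b : ℕ) (H₁ : SimpleGraph (Fin a)) (H₂ : SimpleGraph (Fin b))
    (h : RamseyEquiv H₁ H₂ 2) (hc : (H₁.induce H₁.support).Preconnected) :
    (H₁.induce H₁.support).IsContained H₂ :=
  (Pool.Agent.Variants.MP_781e3b_co.Connected.result a b H₁ H₂ h hc).1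

end Pool.Agent.Results.MP_781e3b_co.ConnectedRigid
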