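import Pool.Agent.Lib.MP_781e3b_co.Main

namespace Pool.Agent.Results.MP_781e3b_co.StarForestEquiv

open Pool.Agent.Lib.MP_781e3b_co

/-- If `H₁` is a star forest (isolated vertices allowed) and `H₂` is any graph that is Ramsey
equivalent to `H₁` in two colours, then they are Ramsey equivalent in `q` colours for every
`q ≥ 2`. -/
theorem result (a b : ℕ) (H₁ : SimpleGraph (Fin a)) (H₂ : SimpleGraph (Fin b))
    (hs : IsStarForest H₁) (h : RamseyEquiv H₁ H₂ 2) (q : ℕ) (hq : 2 ≤ q) :
    RamseyEquiv H₁ H₂ q :=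
  (main hs h).2 q hq

end Pool.Agent.Results.MP_781e3b_co.StarForestEquiv
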